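import Pool.Agent.Helper81.TW.Chain

/-!
# The poles of the quotient of two Dedekind zeta functions and chains of Galois subextensions

Let `N/K` be a Galois extension of number fields with arbitrary Galois group, `z` a point and
`F 0 ≤ F 1 ≤ ... ≤ F r = N` a chain of Galois extensions of `K`. A layer `F (i+1) / F i` is small at
`z` if `ζ_(F (i+1)) / ζ_(F i)` does not vanish at `z`, or if `Gal(F (i+1) / F i)` is perfect, its
nonabelian composition factors are alternating groups of degree at least `n ≥ 8` and the order of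
`ζ_(F (i+1)) / ζ_(F i)` at `z` is smaller than `c n`, where `c n / n → 1`.

If every layer is solvable or small then `ζ_L / ζ_(L ∩ F 0)` is holomorphic at `z` for all fields `L`
between `K` and `N`. With `F 0 = K`: every pole of `ζ_L / ζ_K` is a zero of `ζ_(F (i+1)) / ζ_(F i)`
for a layer which is not solvable.

If every layer is small, then `L(s, ρ)` is holomorphic and nonzero at `z` for every representation
`ρ` of `Gal(N/K)` without nonzero vectors fixed by `Gal(N/F 0)`, the orders of `ζ_L` and
`ζ_(L ∩ F 0)` are equal, and `ζ_L / ζ_E` is holomorphic at `z` for all `E ≤ L` if `Gal(F 0 / K)` is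
solvable.

Proof. A Heilbronn function `θ` of a finite group which is constant on a normal subgroup `T` is
constant on every coset `x T` (an induction over the normalisers of the nontrivial `p`-subgroups of
`T` shows that a Sylow `p`-subgroup of `T` acts freely, by conjugation, on the elements of `x T` with
values different from one value). Solvable layers: if `S` is a solvable normal subgroup and `H` any
subgroup of a finite group, the average of `θ` over `H S` is at most the average over `H`.
-/

set_option autoImplicit false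

open NumberField Filter Topology Pool.Agent.Helper94.Pr

namespace Pool.Agent.Helper81.Keep.LowOrderV6

/-- The sum of `2 ^ i - 1` over the exponents `i ≥ 3` in the binary expansion of `n`. -/
def beta (n : ℕ) : ℕ := ∑ i ∈ n.bitIndices.toFinset.filter (3 ≤ ·), (2 ^ i - 1)

/-- The entire function `(s - 1) ζ_F(s)` vanishes to the order `m` at `z`. -/
def Ord (F : Type) [Field F] [NumberField F] (z : ℂ) (m : ℕ) : Prop :=
  ∃ Z : ℂ → ℂ, Differentiable ℂ Z ∧ (∀ s : ℂ, 1 < s.re → Z s = (s - 1) * dedekindZeta F s) ∧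
    analyticOrderAt Z z = m

/-- Every nonabelian composition factor `B / A` of `G` is an alternating group of degree at least
`n`. -/
def AltFactors (n : ℕ) (G : Type) [Group G] : Prop :=
  ∀ A B : Subgroup G, A ≤ B → ∀ _ : (A.subgroupOf B).Normal, B.IsSubnormal →
    IsSimpleGroup (B ⧸ A.subgroupOf B) → (∃ x y : B ⧸ A.subgroupOf B, x * y ≠ y * x) →
      ∃ m, n ≤ m ∧ Nonempty ((B ⧸ A.subgroupOf B) ≃* alternatingGroup (Fin m))

/-- `G` is equal to its commutator subgroup. -/
def Perfect (G : Type) [Group G] : Prop := commutator G = ⊤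

/-- The only vector fixed by `ρ(h)` for all `h` in `H` is zero. -/
def NoFixedVector {G V : Type} [Group G] [AddCommGroup V] [Module ℂ V] (ρ : Representation ℂ G V)
    (H : Subgroup G) : Prop :=
  ∀ v : V, (∀ h ∈ H, ρ h v = v) → v = 0

/-- The meromorphic continuation `f` of the Artin `L`-function of `ρ` is holomorphic and nonzero at
`z`. -/
def RegularAt {K N V : Type} [Field K] [NumberField K] [Field N] [NumberField N] [Algebra K N]
    [IsGalois K N] [AddCommGroup V] [Module ℂ V] (ρ : Representation ℂ (N ≃ₐ[K] N) V) (z : ℂ) :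
    Prop :=
  ∃ f : ℂ → ℂ, Meromorphic f ∧ (∀ s : ℂ, 1 < s.re → f s = artinFun ρ s) ∧ AnalyticAt ℂ f z ∧
    f z ≠ 0

/-- The group `Gal(F/E)` of the restrictions to `F` of the elements of `Gal(N/E)`. -/
noncomputable def gal {K N : Type} [Field K] [Field N] [Algebra K N] (E : IntermediateField K N)
    (F : Type) [Field F] [Algebra K F] [Algebra F N] [IsScalarTower K F N] [Normal K F] :
    Subgroup (F ≃ₐ[K] F) :=
  E.fixingSubgroup.map (AlgEquiv.restrictNormalHom F)

/-- `Gal(F/E)` is solvable. -/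
def SolvLayer {K N : Type} [Field K] [Field N] [Algebra K N] (E : IntermediateField K N)
    (F : Type) [Field F] [Algebra K F] [Algebra F N] [IsScalarTower K F N] [Normal K F] : Prop :=
  Group.IsSolvable (gal E F)

/-- `Gal(F/E)` is perfect and its nonabelian composition factors are alternating groups of degree
at least `n`. -/
def AltLayer (n : ℕ) {K N : Type} [Field K] [Field N] [Algebra K N] (E : IntermediateField K N)
    (F : Type) [Field F] [Algebra K F] [Algebra F N] [IsScalarTower K F N] [Normal K F] : Prop :=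
  Perfect (gal E F) ∧ AltFactors n (gal E F)

/-- Either `ζ_F / ζ_E` does not vanish at `z` (the orders `a` of `F` and `b` of `E` at `z` agree), or
`Gal(F/E)` is perfect, its nonabelian composition factors are alternating of degree at least `n ≥ 8`,
and the order `a - b` of `ζ_F / ζ_E` is smaller than `c n` or `a` is smaller than `beta n`. -/
def Small (c : ℕ → ℕ) {K N : Type} [Field K] [Field N] [Algebra K N] (E : IntermediateField K N)
    (F : Type) [Field F] [Algebra K F] [Algebra F N] [IsScalarTower K F N] [Normal K F]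
    (a b : ℕ) : Prop :=
  a = b ∨ ∃ n, 8 ≤ n ∧ AltLayer n E F ∧ (a < b + c n ∨ a < beta n)

/-- `ζ_L / ζ_(L ∩ F)` is holomorphic at `z` for all fields `L` between `K` and `N`. -/
def Hol {K N : Type} [Field K] [NumberField K] [Field N] [NumberField N] [Algebra K N]
    (F : IntermediateField K N) (z : ℂ) : Prop :=
  ∀ (L : IntermediateField K N) (l m : ℕ), Ord (L ⊓ F : IntermediateField K N) z l →
    Ord L z m → l ≤ m

/-- `L(s, ρ)` is holomorphic and nonzero at `z` for every `ρ` without nonzero vectors fixed by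
`Gal(N/F)`, the orders of `L` and `L ∩ F` are equal, and `ζ_L / ζ_E` is holomorphic at `z` for all
`E ≤ L` if `Gal(F/K)` is solvable. -/
def Reg {K N : Type} [Field K] [NumberField K] [Field N] [NumberField N] [Algebra K N]
    [IsGalois K N] (F : IntermediateField K N) (z : ℂ) : Prop :=
  (∀ {V : Type} [AddCommGroup V] [Module ℂ V] [FiniteDimensional ℂ V]
    (ρ : Representation ℂ (N ≃ₐ[K] N) V), NoFixedVector ρ F.fixingSubgroup → RegularAt ρ z) ∧
  (∀ (L : IntermediateField K N) (m : ℕ),
    Ord L z m ↔ Ord (L ⊓ F : IntermediateField K N) z m) ∧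
  (Group.IsSolvable (F ≃ₐ[K] F) → ∀ (E L : IntermediateField K N) (l m : ℕ), E ≤ L →
    Ord E z l → Ord L z m → l ≤ m)

theorem result :
    (∀ (F : Type) [Field F] [NumberField F] (z : ℂ), ∃! m, Ord F z m) ∧
    ∃ c : ℕ → ℕ, Tendsto (fun n => (c n : ℝ) / n) atTop (𝓝 1) ∧ (∀ n, 8 ≤ n → n ≤ 8 * c n + 5) ∧
    ∀ {K N : Type} [Field K] [NumberField K] [Field N] [NumberField N] [Algebra K N]
      [IsGalois K N] (r : ℕ) (F : Fin (r + 1) → IntermediateField K N) [∀ i, IsGalois K (F i)],
      Monotone F → F (Fin.last r) = ⊤ → ∀ (z : ℂ) (o : Fin (r + 1) → ℕ), (∀ i, Ord (F i) z (o i)) →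
      ((∀ i : Fin r, SolvLayer (F i.castSucc) (F i.succ) ∨
          Small c (F i.castSucc) (F i.succ) (o i.succ) (o i.castSucc)) → Hol (F 0) z) ∧
      ((∀ i : Fin r, Small c (F i.castSucc) (F i.succ) (o i.succ) (o i.castSucc)) →
        Reg (F 0) z) := by
  have hex : ∀ (F : Type) [Field F] [NumberField F], ∃ Z, Pool.Agent.Helper81.OT.IsZeta F Z :=
    fun F _ _ => Pool.Agent.Helper3.AR.zeta_entire Pool.Agent.Helper13.AR.hecke F
  have huniq : ∀ (F : Type) [Field F] [NumberField F] {Z W : ℂ → ℂ} (z : ℂ),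
      Pool.Agent.Helper81.OT.IsZeta F Z → Pool.Agent.Helper81.OT.IsZeta F W →
      analyticOrderAt Z z = analyticOrderAt W z := by
    intro F _ _ Z W z h1 h2
    rw [Pool.Agent.Helper81.OT.order_N (K := F) h1 z,
      Pool.Agent.Helper81.OT.order_N (K := F) h2 z]
  have hord : ∀ (F : Type) [Field F] [NumberField F] {Z : ℂ → ℂ} (z : ℂ) (m : ℕ),
      Pool.Agent.Helper81.OT.IsZeta F Z → (Ord F z m ↔ analyticOrderAt Z z = m) := by
    intro F _ _ Z z m h1
    constructor
    · rintro ⟨W, h2, h3, h4⟩
      rw [huniq F z h1 ⟨h2, h3⟩, h4]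
    · intro h2
      exact ⟨Z, h1.1, h1.2, h2⟩
  refine ⟨?_, Pool.Agent.Helper81.OT.rc, Pool.Agent.Helper81.OT.rc_tendsto,
    fun n hn => Pool.Agent.Helper81.OT.rc_explicit hn, ?_⟩
  · intro F _ _ z
    obtain ⟨Z, hZ⟩ := hex F
    refine ⟨_, (hord F z _ hZ).2 (Pool.Agent.Helper81.OT.order_N (K := F) hZ z), ?_⟩
    intro m hm
    have h1 := (hord F z m hZ).1 hm
    rw [Pool.Agent.Helper81.OT.order_N (K := F) hZ z] at h1
    exact_mod_cast h1.symm
  intro K N _ _ _ _ _ _ r F _ hF hlast z o ho
  obtain ⟨θ, hθ, h⟩ := Pool.Agent.Helper81.OT.exists_heil K N z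
  have hsmall : ∀ i : Fin r, Small Pool.Agent.Helper81.OT.rc (F i.castSucc) (F i.succ) (o i.succ)
      (o i.castSucc) → ∀ y, ∀ t ∈ Pool.Agent.Helper81.TW.gal (F i.castSucc) (F i.succ),
        Pool.Agent.Helper81.OT.psf (AlgEquiv.restrictNormalHom (F := K) (K₁ := N) (F i.succ)) θ
          (y * t) =
        Pool.Agent.Helper81.OT.psf (AlgEquiv.restrictNormalHom (F := K) (K₁ := N) (F i.succ)) θ
          y := by
    intro i hi
    obtain ⟨ZE, hE⟩ := hex (F i.castSucc)
    obtain ⟨ZF, hZF⟩ := hex (F i.succ)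
    have ha := (hord _ z _ hZF).1 (ho i.succ)
    have hb := (hord _ z _ hE).1 (ho i.castSucc)
    have hle := hF (Fin.castSucc_le_succ i)
    rcases hi with hi | ⟨n, hn, ⟨hP, hG⟩, hz⟩
    · exact Pool.Agent.Helper81.TW.psf_const_zero _ _ hle hθ h hE hZF ha hb hi
    · have hcf : Pool.Agent.Helper3.Comp.CFH (Pool.Agent.Helper81.OT.PPalt n)
          (Pool.Agent.Helper81.TW.gal (F i.castSucc) (F i.succ)) ⊤ := by
        intro A B hA hAB hB hs hna
        obtain ⟨m, h1, h3⟩ := hG A B hAB hA hB hs hna
        exact ⟨m, by omega, h1, by omega, h3⟩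
      refine Pool.Agent.Helper81.TW.psf_const_gap _ _ hle (Pool.Agent.Helper81.OT.rc_gap n)
        (Pool.Agent.Helper81.OT.rc_le n) hn hcf hP hθ h hE hZF ha hb ?_
      rcases hz with hz | hz
      · rcases Nat.eq_zero_or_pos (Pool.Agent.Helper81.OT.rc n) with h0 | h0
        · have := Pool.Agent.Helper81.OT.rc_explicit hn
          omega
        · right
          exact ⟨o i.succ - o i.castSucc, by omega, by omega⟩
      · exact Or.inl hz
  constructor
  · intro hfree L l m hl hm
    obtain ⟨ZL, hL⟩ := hex L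
    obtain ⟨ZM, hM⟩ := hex (L ⊓ F 0 : IntermediateField K N)
    have h1 := Pool.Agent.Helper81.TW.chain_le F hF hlast hθ h
      (fun i => (hfree i).imp id (hsmall i)) L hL hM
    rw [(hord L z m hL).1 hm, (hord (L ⊓ F 0 : IntermediateField K N) z l hM).1 hl] at h1
    exact_mod_cast h1
  intro hall
  have heq : ∀ i : Fin (r + 1), o i = o 0 := by
    intro i
    induction i using Fin.induction with
    | zero => rfl
    | succ i ih =>
      obtain ⟨ZE, hE⟩ := hex (F i.castSucc)
      obtain ⟨ZF, hZF⟩ := hex (F i.succ)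
      have h1 := Pool.Agent.Helper81.TW.incr_zero _ _ (hF (Fin.castSucc_le_succ i)) h
        (hsmall i (hall i)) hE hZF ((hord _ z _ hZF).1 (ho i.succ))
        ((hord _ z _ hE).1 (ho i.castSucc))
      rw [h1, ih]
  obtain ⟨ZN, hN⟩ := hex N
  obtain ⟨ZE, hE⟩ := hex (F 0)
  obtain ⟨ZT, hT⟩ := hex (F (Fin.last r))
  have hNT : analyticOrderAt ZN z = analyticOrderAt ZT z := by
    rw [Pool.Agent.Helper81.OT.order_N (K := K) hN z,
      Pool.Agent.Helper81.OT.order_L (F (Fin.last r)) hT z, hlast,
      IntermediateField.fixingSubgroup_top]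
  have hc : ∀ x, ∀ t ∈ (F 0).fixingSubgroup, θ (x * t) = θ x := by
    refine Pool.Agent.Helper81.OT.heil_const_zero (F 0) hE hN z ?_ hθ h
    rw [hNT, (hord _ z _ hT).1 (ho (Fin.last r)), (hord _ z _ hE).1 (ho 0), heq]
  refine ⟨fun ρ hρ => ?_, fun L m => ?_, fun hs E L l m hEL hE' hL' => ?_⟩
  · exact Pool.Agent.Helper81.OT.concl_artin (F 0) z hθ h hc ρ hρ
  · obtain ⟨ZL, hL⟩ := hex L
    obtain ⟨ZM, hM⟩ := hex (L ⊓ F 0 : IntermediateField K N)
    rw [hord L z m hL, hord (L ⊓ F 0 : IntermediateField K N) z m hM,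
      Pool.Agent.Helper81.OT.concl_L (F 0) z h hc L hL hM]
  · obtain ⟨ZA, hA⟩ := hex E
    obtain ⟨ZB, hB⟩ := hex L
    rw [hord E z l hA] at hE'
    rw [hord L z m hB] at hL'
    have hs' : Group.IsSolvable (F 0 ≃ₐ[K] F 0) := hs
    have h1 := Pool.Agent.Helper81.OT.concl_pair (F 0) z hθ h hc E L hEL hA hB
    rw [hE', hL'] at h1
    exact_mod_cast h1

end Pool.Agent.Helper81.Keep.LowOrderV6
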